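import Pool.Agent.Lib.H43I.Own

/-!
# A subshift with a solvable group of automorphisms that contains a distortion element
-/

set_option autoImplicit false

open Filter Topology

namespace Pool.Agent.Results.MP_dc5bfb_al.DistortedSolvable

/-- The left shift of `A^ℤ`. -/
def shift {A : Type*} (x : ℤ → A) : ℤ → A := fun i => x (i + 1)

/-- `X` is a subshift over the alphabet `Fin k`: a nonempty closed set of configurations (product
topology) which is mapped onto itself by the left shift. -/
structure IsSubshift {k : ℕ} (X : Set (ℤ → Fin k)) : Prop where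
  nonempty : X.Nonempty
  isClosed : IsClosed X
  shift_image : shift '' X = X

theorem IsSubshift.shift_mem {k : ℕ} {X : Set (ℤ → Fin k)} (hX : IsSubshift X) {x : ℤ → Fin k}
    (hx : x ∈ X) : shift x ∈ X := by
  have h := Set.mem_image_of_mem shift hx
  rwa [hX.shift_image] at h

/-- The shift as a map of a subshift to itself. -/
def shiftOn {k : ℕ} {X : Set (ℤ → Fin k)} (hX : IsSubshift X) (x : X) : X :=
  ⟨shift x.1, hX.shift_mem x.2⟩

/-- Amenability of a discrete group: there is a left-invariant finitely additive probability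
measure defined on all subsets. -/
def IsAmenable (G : Type*) [Group G] : Prop :=
  ∃ m : Set G → ℝ, (∀ A, 0 ≤ m A) ∧ m Set.univ = 1 ∧
    (∀ A B, Disjoint A B → m (A ∪ B) = m A + m B) ∧
    ∀ (g : G) (A : Set G), m ((fun h : G => g * h) '' A) = m A

/-- The word norm of `g` with respect to `S`: the least length of a word in elements of `S` and
inverses of elements of `S` with product `g` (used for `g` in the subgroup generated by `S`). -/
noncomputable def wordNorm {G : Type*} [Group G] (S : Set G) (g : G) : ℕ :=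
  sInf {n : ℕ | ∃ l : List G, (∀ s ∈ l, s ∈ S ∨ s⁻¹ ∈ S) ∧ l.prod = g ∧ l.length = n}

/-- `g` is a distortion element of the group `H`: it has infinite order and lies in a subgroup `K`
generated by a finite set `S`, with `|g ^ n|_S / n → 0`. -/
def IsDistortionElement {H : Type*} [Group H] (g : H) : Prop :=
  (∀ n : ℕ, 0 < n → g ^ n ≠ 1) ∧
    ∃ K : Subgroup H, g ∈ K ∧ ∃ S : Set H, S.Finite ∧ Subgroup.closure S = K ∧
      Tendsto (fun n : ℕ => (wordNorm S (g ^ n) : ℝ) / n) atTop (𝓝 0)

/-- The element `(b t⁻²⁴ b t²⁴)²`; for `b² = 1` it is the commutator of `b` and `t⁻²⁴ b t²⁴`. -/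
def comm24 {G : Type*} [Group G] (b t : G) : G := (b * (t⁻¹ ^ 24 * b * t ^ 24)) ^ 2

/-- The word norm of `g ^ n` with respect to `{b, t}` is at most `360 n ^ (log₅ 3) (4 + log₅ n)`
for all `n ≥ 1`. -/
def SlowGrowth {G : Type*} [Group G] (b t g : G) : Prop :=
  ∀ n : ℕ, 1 ≤ n → (wordNorm {b, t} (g ^ n) : ℝ) ≤
    360 * (n : ℝ) ^ Real.logb 5 3 * (4 + Real.logb 5 n)

theorem wordNorm_le {G : Type*} [Group G] {S : Set G} {g : G} {l : List G}
    (h1 : ∀ s ∈ l, s ∈ S ∨ s⁻¹ ∈ S) (h2 : l.prod = g) : wordNorm S g ≤ l.length :=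
  Nat.sInf_le ⟨l, h1, h2, rfl⟩

theorem tendsto_bound :
    Tendsto (fun n : ℕ => 360 * (n : ℝ) ^ Real.logb 5 3 * (4 + Real.logb 5 n) / n) atTop
      (𝓝 0) := by
  set a : ℝ := Real.logb 5 3 with ha
  have ha1 : a < 1 := by
    rw [ha, Real.logb_lt_iff_lt_rpow (by norm_num) (by norm_num)]
    norm_num
  have h1 : Tendsto (fun x : ℝ => x ^ (-(1 - a))) atTop (𝓝 0) :=
    tendsto_rpow_neg_atTop (by linarith)
  have h2 : Tendsto (fun x : ℝ => Real.log x / x ^ (1 - a)) atTop (𝓝 0) :=
    (isLittleO_log_rpow_atTop (by linarith)).tendsto_div_nhds_zero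
  have h3 : Tendsto (fun x : ℝ => 1440 * x ^ (-(1 - a)) +
      360 / Real.log 5 * (Real.log x / x ^ (1 - a))) atTop (𝓝 0) := by
    have := (h1.const_mul 1440).add (h2.const_mul (360 / Real.log 5))
    simpa using this
  have h4 : Tendsto (fun x : ℝ => 360 * x ^ a * (4 + Real.logb 5 x) / x) atTop (𝓝 0) := by
    refine h3.congr' ?_
    filter_upwards [eventually_gt_atTop (0 : ℝ)] with x hx
    have h5 : x ^ (-(1 - a)) = x ^ a / x := by
      rw [show -(1 - a) = a - 1 by ring, Real.rpow_sub_one hx.ne']
    have h6 : x ^ (1 - a) = x / x ^ a := by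
      rw [Real.rpow_sub hx, Real.rpow_one]
    have h7 : x ^ a ≠ 0 := (Real.rpow_pos_of_pos hx a).ne'
    have h8 : Real.log 5 ≠ 0 := (Real.log_pos (by norm_num)).ne'
    rw [h5, h6, Real.logb]
    field_simp
    ring
  exact h4.comp tendsto_natCast_atTop_atTop

/-- The group `G` is solvable of derived length at most `3` and is generated by two elements `b, t`
with `b² = 1` such that `(b t⁻²⁴ b t²⁴)²` is a distortion element with slow growth. -/
def ExplicitDistortion (G : Type) [Group G] : Prop :=
  derivedSeries G 3 = ⊥ ∧ ∃ b t : G, Subgroup.closure {b, t} = ⊤ ∧ b * b = 1 ∧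
    IsDistortionElement (comm24 b t) ∧ SlowGrowth b t (comm24 b t)

/-- For a map `s` of a space `Y` to itself: there is a group `H` of homeomorphisms of `Y` onto
itself commuting with `s` (automorphisms of `(Y, s)`) which is amenable and has the properties of
`ExplicitDistortion`; in particular `H` contains a distortion element of `H`. -/
def HasDistortedAmenableGroup (Y : Type) [TopologicalSpace Y] (s : Y → Y) : Prop :=
  ∃ H : Subgroup (Y ≃ₜ Y), (∀ f ∈ H, ∀ y, f (s y) = s (f y)) ∧ IsAmenable H ∧
    ExplicitDistortion H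

/-- There are a finite alphabet, a subshift `X` and a group `H` of automorphisms of `X` which is
amenable, indeed solvable of derived length at most `3`, and generated by two elements `b, t` with
`b² = 1`, such that `g = (b t⁻²⁴ b t²⁴)²` (the commutator of `b` and `t⁻²⁴ b t²⁴`) is a distortion
element of `H`; more precisely the word norm of `g ^ n` with respect to `{b, t}` is at most
`360 n ^ (log₅ 3) (4 + log₅ n)` for all `n ≥ 1` (`log₅ 3` is about `0.683`). -/
theorem result :
    ∃ (k : ℕ) (X : Set (ℤ → Fin k)) (hX : IsSubshift X),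
      HasDistortedAmenableGroup X (shiftOn hX) := by
  obtain ⟨k, X, h1, h2, h3, H, h4, h5, b, t, h6, h7, h8, h9⟩ := Pool.Agent.Lib.H43I.own_main
  have hbound : SlowGrowth b t (comm24 b t) := by
    intro n hn
    obtain ⟨l, hl1, hl2, hl3⟩ := h9 n hn
    exact le_trans (by exact_mod_cast wordNorm_le hl1 hl2) hl3
  refine ⟨k, X, ⟨h1, h2, h3⟩, H, fun f hf x => Subtype.ext (h4 f hf x _ rfl), ?_, h5, b, t, h6,
    h7, ?_, hbound⟩
  · have hsol : Group.IsSolvable H := ⟨⟨3, h5⟩⟩
    exact Pool.Agent.Lib.H43Dist.exists_mean_of_solvable hsol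
  · refine ⟨h8, ⊤, trivial, {b, t}, Set.toFinite _, h6, ?_⟩
    refine squeeze_zero' (Eventually.of_forall fun n => by positivity) ?_ tendsto_bound
    filter_upwards [eventually_ge_atTop 1] with n hn
    exact div_le_div_of_nonneg_right (hbound n hn) (Nat.cast_nonneg n)

end Pool.Agent.Results.MP_dc5bfb_al.DistortedSolvable
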